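import Mathlib

/-!
# Lengths of quotients of local rings are transported by ring isomorphisms
-/

set_option autoImplicit false

namespace Pool.Agent.VSN

/-- the length of a ring over itself is invariant under isomorphism -/
lemma length_self_ringEquiv {A A' : Type*} [CommRing A] [CommRing A'] (e : A ≃+* A') :
    Module.length A A = Module.length A' A' := by
  apply WithBot.coe_injective
  rw [Module.coe_length, Module.coe_length]
  exact Order.krullDim_eq_of_orderIso e.idealComapOrderIso.symm

lemma length_quot_self {A : Type*} [CommRing A] (I : Ideal A) :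
    Module.length A (A ⧸ I) = Module.length (A ⧸ I) (A ⧸ I) :=
  Module.length_eq_of_surjective Ideal.Quotient.mk_surjective

lemma length_quot_ringEquiv {A A' : Type*} [CommRing A] [CommRing A'] (e : A ≃+* A')
    (I : Ideal A) (I' : Ideal A') (h : I' = I.map (e : A →+* A')) :
    Module.length A (A ⧸ I) = Module.length A' (A' ⧸ I') := by
  rw [length_quot_self, length_quot_self]
  exact length_self_ringEquiv (Ideal.quotientEquiv I I' e h)

/-- transport of the length at a prime along a ring isomorphism -/
theorem length_loc_ringEquiv {S S' : Type*} [CommRing S] [CommRing S'] (e : S ≃+* S')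
    (Q : Ideal S) (Q' : Ideal S') [Q.IsPrime] [Q'.IsPrime] (hQ : ∀ z, e z ∈ Q' ↔ z ∈ Q)
    (I : Ideal S) (I' : Ideal S') (hI : I' = I.map (e : S →+* S')) :
    Module.length (Localization.AtPrime Q)
      (Localization.AtPrime Q ⧸ I.map (algebraMap S (Localization.AtPrime Q))) =
    Module.length (Localization.AtPrime Q')
      (Localization.AtPrime Q' ⧸ I'.map (algebraMap S' (Localization.AtPrime Q'))) := by
  have hm : Q.primeCompl.map (e : S →* S') = Q'.primeCompl := by
    ext z
    constructor
    · rintro ⟨y, hy, rfl⟩
      intro hz
      exact hy ((hQ y).1 hz)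
    · intro hz
      refine ⟨e.symm z, ?_, e.apply_symm_apply z⟩
      intro h
      apply hz
      rw [← e.apply_symm_apply z]
      exact (hQ _).2 h
  let E : Localization.AtPrime Q ≃+* Localization.AtPrime Q' :=
    IsLocalization.ringEquivOfRingEquiv (M := Q.primeCompl) (T := Q'.primeCompl)
      (Localization.AtPrime Q) (Localization.AtPrime Q') e hm
  refine length_quot_ringEquiv E _ _ ?_
  subst hI
  rw [Ideal.map_map, Ideal.map_map]
  congr 1
  ext z
  simp only [RingHom.comp_apply]
  exact (IsLocalization.ringEquivOfRingEquiv_eq (S := Localization.AtPrime Q)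
    (Q := Localization.AtPrime Q') hm z).symm

end Pool.Agent.VSN
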